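import Pool.Agent.MWGR.StmtsF

/-!
# MWGR, row JA1 (MP_23468a_al): the edge `Al1` is join prime
-/

set_option autoImplicit false

namespace Pool.Agent.MWGR.H62

open Pool.Agent.Helper14_MV Pool.Agent.Helper2_MV Pool.Agent.MVO Pool.Agent.MWL Pool.Agent.MWS
  Pool.Agent.MWH Pool.Agent.MWGR

/-- the blocks of the left word -/
def b0 : ℕ → List ℕ
  | 0 => [0, 0, 1]
  | 1 => [0]
  | 2 => [1]
  | _ => []

/-- the blocks of the right word -/
def b1 (n : ℕ) : ℕ → List ℕ
  | 0 => [0, 0, 1] ++ X n
  | 1 => [0]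
  | 2 => [1]
  | _ => []

theorem asm2 (B : ℕ → List ℕ) : asm 2 B = (B 0 ++ 2 :: B 1) ++ 3 :: B 2 := rfl

theorem deg2 (a : ℕ → ℕ) : deg 2 a = a 0 + a 1 + a 2 := by
  unfold deg
  rw [Finset.sum_range_succ, Finset.sum_range_succ, Finset.sum_range_succ, Finset.sum_range_zero]
  omega

theorem b0_let : ∀ j ≤ 2, ∀ c ∈ b0 j, c = 0 ∨ c = 1 := by
  intro j hj c hc
  have h3 : j = 0 ∨ j = 1 ∨ j = 2 := by omega
  rcases h3 with rfl | rfl | rfl <;> simp [b0] at hc <;> omega

theorem b1_let (n : ℕ) : ∀ j ≤ 2, ∀ c ∈ b1 n j, c = 0 ∨ c = 1 := by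
  intro j hj c hc
  have h3 : j = 0 ∨ j = 1 ∨ j = 2 := by omega
  rcases h3 with rfl | rfl | rfl
  · unfold b1 at hc
    rcases List.mem_append.1 hc with h | h
    · simp at h
      omega
    · exact Or.inl (List.eq_of_mem_replicate h)
  · simp [b1] at hc
    omega
  · simp [b1] at hc
    omega

theorem ns2 {c : ℕ} (h : c = 0 ∨ c = 1) : NS 2 c := by
  unfold NS
  omega

theorem b0_ok : OkB 2 b0 := by
  refine ⟨fun j hj c hc => ns2 (b0_let j hj c hc), fun j hj c hc => ?_⟩
  rw [deg2]
  rcases b0_let j hj c hc with rfl | rfl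
  · decide
  · decide

theorem b1_ok (n : ℕ) : OkB 2 (b1 n) := by
  refine ⟨fun j hj c hc => ns2 (b1_let n j hj c hc), fun j hj c hc => ?_⟩
  rw [deg2]
  rcases b1_let n j hj c hc with rfl | rfl
  · simp only [b1, List.count_append]
    have : ([0, 0, 1] : List ℕ).count 0 = 2 := by decide
    omega
  · simp only [b1, List.count_append]
    have h1 : ([0, 0, 1] : List ℕ).count 1 = 1 := by decide
    have h2 : ([1] : List ℕ).count 1 = 1 := by decide
    omega

/-- the invariant set -/
def AA (B : ℕ → List ℕ) : Prop := ∃ s c r, 2 ≤ s ∧ 1 ≤ c ∧ 1 ≤ r ∧ B 0 = X s ++ [1] ∧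
  B 1 = X c ∧ B 2 = Y r

/-- row JA1 -/
theorem ja1 (hJ : JpigStmt) (hB : BgbStmt) (hM : MnbStmt) (hW : StwStmt) (hF : FrmStmt)
    (hI : ImpStmt) (hE : EalStmt) (hD : DalStmt) (hN : Nt1Stmt) : Ja1Stmt := by
  intro n β hβ
  have hn : 1 ≤ n := hβ.pos
  have hbas := (hB n β hβ).1
  have e1 : asm 2 b0 = Ed.al1.l n := rfl
  have e2 : asm 2 (b1 n) = Ed.al1.r n := by
    rw [asm2]
    simp [b1, Ed.r]
  have key : JPp β (asm 2 b0, asm 2 (b1 n)) := by
    refine hJ β hbas.cap 2 b0 (b1 n) AA b0_ok (b1_ok n) ⟨2, 1, 1, le_refl _, le_refl _, le_refl _,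
      rfl, rfl, rfl⟩ ?_ ?_ ?_
    · rintro ⟨s, c, r, _, _, _, h, _, _⟩
      have h1 := congrArg (fun l => l.getLast?) h
      simp only [b1] at h1
      rw [List.getLast?_concat, List.getLast?_append_of_ne_nil _ (by
        intro h0
        have := congrArg List.length h0
        simp at this
        omega), List.getLast?_replicate, if_neg (by omega)] at h1
      simp at h1
    · rintro B B' h ⟨s, c, r, h1, h2, h3, h4, h5, h6⟩
      exact ⟨s, c, r, h1, h2, h3, by rw [← h 0 (by omega), h4], by rw [← h 1 (by omega), h5],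
        by rw [← h 2 (by omega), h6]⟩
    · intro θ hθ hnc hne B B' hOB hOB' _ hS' hr hA
      obtain ⟨s, c, r, hs, hc, hr1, hB0, hB1, hB2⟩ := hA
      have hGθ : BG n (RR θ) := (hM n β θ hθ).1 hβ
      have hnal : ¬ Al1 n (RR θ) := by
        intro h
        apply hne
        rw [e1, e2]
        exact h
      have hnE : ¬ Has n (FC.ofFIC θ) Bit.E := fun h =>
        hnal (((hI n θ).1 (hE n θ hGθ h).1).1)
      have hnD : ¬ Has n (FC.ofFIC θ) (Bit.D 0) := fun h =>
        hnal (((hI n θ).1 (hD n θ hGθ h).1).1)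
      have hst := hW n β θ hbas hθ hnc hnD hnE 2 B B' hOB hOB' hr
      have h1m : (1 : ℕ) ∈ B 0 := by rw [hB0]; simp
      have h0m : (0 : ℕ) ∈ B 0 := by
        rw [hB0]
        apply List.mem_append_left
        exact List.mem_replicate.2 ⟨by omega, rfl⟩
      obtain ⟨d1, st1⟩ := hst 1 (ns2 (Or.inr rfl)) ⟨0, by omega, h1m⟩
      obtain ⟨d0, st0⟩ := hst 0 (ns2 (Or.inl rfl)) ⟨0, by omega, h0m⟩
      rw [deg2] at d1 d0
      -- the types of `B`
      have t10 : ty B 1 0 = 1 := by
        show (B 0).count 1 = 1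
        rw [hB0, List.count_append, List.count_singleton_self, List.count_eq_zero.2]
        intro h
        exact absurd (List.eq_of_mem_replicate h) (by decide)
      have t11 : ty B 1 1 = 0 := by
        show (B 1).count 1 = 0
        rw [hB1, List.count_eq_zero]
        intro h
        exact absurd (List.eq_of_mem_replicate h) (by decide)
      have t00 : ty B 0 0 = s := by
        show (B 0).count 0 = s
        rw [hB0, List.count_append, List.count_replicate_self]
        rfl
      have t01 : ty B 0 1 = c := by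
        show (B 1).count 0 = c
        rw [hB1, List.count_replicate_self]
      have t02 : ty B 0 2 = 0 := by
        show (B 2).count 0 = 0
        rw [hB2, List.count_eq_zero]
        intro h
        exact absurd (List.eq_of_mem_replicate h) (by decide)
      -- the types of `B'`
      have u10 : ty B' 1 0 = 1 := ((st1 0 (by omega)).1 (fun p hp => absurd hp (by omega))).1.1 t10
      have u11 : ty B' 1 1 = 0 := by
        refine ((st1 1 (by omega)).2.2.1 ⟨0, by omega, t10, ?_⟩).1 t11
        intro l hl hl0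
        omega
      have v0 := (st0 0 (by omega)).1 (fun p hp => absurd hp (by omega))
      have v1 := (st0 1 (by omega)).2.1 (by
        intro q hq1 hq2
        have : q = 2 := by omega
        rw [this]
        exact t02)
      have v2 : ty B' 0 2 = 0 := v1.2 2 (by omega) (le_refl _)
      have v3 : ty B' 0 1 ≠ 0 := by
        intro h
        have := v1.1.2 h
        omega
      have v4 : ty B' 0 0 ≠ 0 := by
        intro h
        have := v0.2.1.2 h
        omega
      have v5 : ty B' 0 0 ≠ 1 := by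
        intro h
        have := v0.1.2 h
        omega
      -- the blocks of `B'`
      have hlet : ∀ j ≤ 2, ∀ c ∈ B' j, c = 0 ∨ c = 1 := by
        intro j hj c hc
        obtain ⟨j', hj', hc'⟩ := hS' c ⟨j, hj, hc⟩
        exact b0_let j' hj' c hc'
      obtain ⟨s', t', hB0', hst'⟩ := (hF.1 (B' 0) (hlet 0 (by omega))).1 u10
      have hB1' := (hF.1 (B' 1) (hlet 1 (by omega))).2.1 u11
      have hB2' := (hF.1 (B' 2) (hlet 2 (by omega))).2.2 v2
      have w1 : (B' 0).count 0 = ty B' 0 0 := rfl
      have w2 : (B' 1).count 0 = ty B' 0 1 := rfl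
      have w3 : (B' 2).count 1 = ty B' 1 2 := rfl
      by_cases ht : t' = 0
      · refine ⟨s', (B' 1).count 0, (B' 2).count 1, by omega, by omega, by omega, ?_, hB1', hB2'⟩
        rw [hB0', ht]
        rfl
      · exfalso
        apply hnal
        refine hN n θ hGθ s s' t' c ((B' 1).count 0) r ((B' 2).count 1) hs (by omega) (by omega) hc
          hr1 (by omega) ?_
        rw [asm2, asm2, hB0, hB1, hB2, hB0', hB1', hB2'] at hr
        have f1 : (X s ++ [1] ++ 2 :: X c) ++ 3 :: Y r =
            X s ++ 1 :: 2 :: (X c ++ 3 :: Y r) := by simp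
        have f2 : ∀ a b : ℕ, (X s' ++ 1 :: X t' ++ 2 :: X a) ++ 3 :: Y b =
            X s' ++ 1 :: (X t' ++ 2 :: (X a ++ 3 :: Y b)) := by
          intro a b
          simp
        rw [f1, f2] at hr
        exact hr
  rw [e1, e2] at key
  exact key

end Pool.Agent.MWGR.H62
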